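import Pool.Agent.Helper73.D4.OPT
import Pool.Agent.Helper14.D4.G1

/-!
# Project D4, block B~ (MP_e1889a_ag): a function of largest slope, unconditional
-/

set_option autoImplicit false

namespace Pool.Agent.Helper73.D4

theorem s_OPT' : Pool.Agent.Helper46.D4.S_OPT := s_OPT Pool.Agent.Helper14.D4.s_G1

end Pool.Agent.Helper73.D4
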