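import Pool.Agent.Helper46.D4.Stmts

/-!
# Project D4, block B~ (MP_e1889a_ag): a function of largest slope
-/

set_option autoImplicit false

namespace Pool.Agent.Helper73.D4

open Module Polynomial Pool.Agent.Helper37.SD Pool.Agent.Helper20.TS Pool.Agent.Helper88.D4
  Pool.Agent.Helper46.D4

variable {K : Type} [Field K] [Algebra ℂ K]

/-- the span of the monomials of `X`-degree `N` -/
def Mon {n : ℕ} (x : Fin n → K) (i : Fin n → ℕ) (N : ℕ) : Submodule ℂ K :=
  Submodule.span ℂ {z | ∃ m : Fin n → ℕ, ∑ k, m k * i k = N ∧ z = ∏ k, x k ^ m k}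

theorem mon_mul {n : ℕ} {x : Fin n → K} {i : Fin n → ℕ} {a b : ℕ} {y z : K}
    (hy : y ∈ Mon x i a) (hz : z ∈ Mon x i b) : y * z ∈ Mon x i (a + b) := by
  have h : y * z ∈ Mon x i a * Mon x i b := Submodule.mul_mem_mul hy hz
  unfold Mon at h
  rw [Submodule.span_mul_span] at h
  refine Submodule.span_mono ?_ h
  rintro w ⟨p, ⟨m, hm, rfl⟩, q, ⟨m', hm', rfl⟩, rfl⟩
  refine ⟨m + m', ?_, ?_⟩
  · rw [← hm, ← hm', ← Finset.sum_add_distrib]
    refine Finset.sum_congr rfl fun k _ => ?_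
    rw [Pi.add_apply, add_mul]
  · beta_reduce
    rw [← Finset.prod_mul_distrib]
    refine Finset.prod_congr rfl fun k _ => ?_
    rw [Pi.add_apply, pow_add]

theorem mon_one {n : ℕ} (x : Fin n → K) (i : Fin n → ℕ) : (1 : K) ∈ Mon x i 0 :=
  Submodule.subset_span ⟨0, by simp, by simp⟩

/-- coefficients of elements of the algebra -/
theorem coeff_mon {n : ℕ} (x : Fin n → K) (i : Fin n → ℕ) {p : K[X]}
    (hp : p ∈ Algebra.adjoin ℂ (Set.range fun k => C (x k) * X ^ i k)) (N : ℕ) :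
    p.coeff N ∈ Mon x i N := by
  classical
  induction hp using Algebra.adjoin_induction generalizing N with
  | mem p hp =>
    obtain ⟨k, rfl⟩ := hp
    rw [coeff_C_mul_X_pow]
    split_ifs with h
    · refine Submodule.subset_span ⟨Pi.single k 1, ?_, ?_⟩
      · rw [Finset.sum_eq_single k]
        · rw [Pi.single_eq_same, one_mul, h]
        · intro l _ hl
          rw [Pi.single_eq_of_ne hl, zero_mul]
        · intro hk
          exact absurd (Finset.mem_univ k) hk
      · rw [Finset.prod_eq_single k]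
        · rw [Pi.single_eq_same, pow_one]
        · intro l _ hl
          rw [Pi.single_eq_of_ne hl, pow_zero]
        · intro hk
          exact absurd (Finset.mem_univ k) hk
    · exact Submodule.zero_mem _
  | algebraMap t =>
    rw [Polynomial.algebraMap_apply, coeff_C]
    split_ifs with h
    · subst h
      rw [Algebra.algebraMap_eq_smul_one]
      exact Submodule.smul_mem _ _ (mon_one x i)
    · exact Submodule.zero_mem _
  | add p q _ _ hp hq =>
    rw [coeff_add]
    exact Submodule.add_mem _ (hp N) (hq N)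
  | mul p q _ _ hp hq =>
    rw [coeff_mul]
    refine Submodule.sum_mem _ fun a ha => ?_
    rw [Finset.HasAntidiagonal.mem_antidiagonal] at ha
    rw [← ha]
    exact mon_mul (hp a.1) (hq a.2)

/-- `y ∈ R`, `y h ^ N ∈ R` -/
theorem mem_mon {n : ℕ} {x : Fin n → K} {i : Fin n → ℕ} {R : Subalgebra ℂ K} {h : K}
    (hgen : Sym R h = Algebra.adjoin ℂ (Set.range fun k => C (x k) * X ^ i k)) {y : K} {N : ℕ}
    (hy : y ∈ Sj R h N) : y ∈ Mon x i N := by
  have h1 : C y * X ^ N ∈ Sym R h := by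
    intro j
    rw [coeff_C_mul_X_pow]
    split_ifs with hj
    · subst hj
      exact hy
    · exact Submodule.zero_mem _
  rw [hgen] at h1
  have h2 := coeff_mon x i h1 N
  rwa [coeff_C_mul_X_pow, if_pos rfl] at h2

theorem eig_pow {ξ : Derivation ℂ K K} {x : K} {c : ℝ} (hx : ξ x = (c : ℂ) • x) (m : ℕ) :
    ξ (x ^ m) = ((m * c : ℝ) : ℂ) • x ^ m := by
  induction m with
  | zero => simp
  | succ m ih =>
    rw [pow_succ, eig_mul ih hx]
    congr 2
    push_cast
    ring

theorem eig_mon {ξ : Derivation ℂ K K} {n : ℕ} {x : Fin n → K} {γ : Fin n → ℝ}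
    (hx : ∀ k, ξ (x k) = (γ k : ℂ) • x k) (m : Fin n → ℕ) :
    ξ (∏ k, x k ^ m k) = ((∑ k, m k * γ k : ℝ) : ℂ) • ∏ k, x k ^ m k := by
  have h : ∀ s : Finset (Fin n), ξ (∏ k ∈ s, x k ^ m k) =
      ((∑ k ∈ s, m k * γ k : ℝ) : ℂ) • ∏ k ∈ s, x k ^ m k := by
    classical
    intro s
    induction s using Finset.induction_on with
    | empty => simp
    | insert a s ha ih =>
      rw [Finset.prod_insert ha, Finset.sum_insert ha]
      exact eig_mul (eig_pow (hx a) (m a)) ih
  exact h Finset.univ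

/-- the slope of an eigenvector in the span of monomials -/
theorem slope_le {ξ : Derivation ℂ K K} {n : ℕ} {x : Fin n → K} {i : Fin n → ℕ} {γ : Fin n → ℝ}
    (hx : ∀ k, ξ (x k) = (γ k : ℂ) • x k) {δ : ℝ} {j : ℕ} (hmax : ∀ k, δ * i k ≤ γ k * j)
    {y : K} {c : ℝ} {N : ℕ} (h1 : y ∈ Mon x i N) (hy0 : y ≠ 0) (hyc : ξ y = (c : ℂ) • y) :
    δ * N ≤ c * j := by
  have h2 : y ∈ Hsp (ξ : K →ₗ[ℂ] K) ⊤ (fun c => δ * N ≤ c * j) := by
    refine Submodule.span_le.2 ?_ h1
    rintro z ⟨m, hm, rfl⟩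
    refine mem_hsp Submodule.mem_top ?_ (eig_mon hx m)
    rw [← hm]
    push_cast
    rw [Finset.mul_sum, Finset.sum_mul]
    refine Finset.sum_le_sum fun k _ => ?_
    have h3 := mul_le_mul_of_nonneg_left (hmax k) (Nat.cast_nonneg (α := ℝ) (m k))
    calc δ * (m k * i k) = m k * (δ * i k) := by ring
      _ ≤ m k * (γ k * j) := h3
      _ = m k * γ k * j := by ring
  exact prop_of_mem_hsp (A := (ξ : K →ₗ[ℂ] K)) (P := fun c : ℝ => δ * N ≤ c * j) (a := c) hy0 hyc h2

/-- division with remainder -/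
theorem mon_div {n : ℕ} {x : Fin n → K} {i : Fin n → ℕ} {φ : K} {j l : ℕ} (hk0 : 0 < j)
    {S : Subalgebra ℂ K} (h1 : ∀ k, x k ^ j / φ ^ i k ∈ S)
    (h2 : ∀ (r : Fin n → Fin j) (l' : ℕ), ∑ k, (r k : ℕ) * i k = j * l' →
      (∏ k, x k ^ (r k : ℕ)) / φ ^ l' ∈ S) {y : K} (hy : y ∈ Mon x i (j * l)) :
    y / φ ^ l ∈ S := by
  induction hy using Submodule.span_induction with
  | mem z hz =>
    obtain ⟨m, hm, rfl⟩ := hz
    have e1 : ∀ k, m k = j * (m k / j) + m k % j := fun k => (Nat.div_add_mod _ _).symm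
    obtain ⟨r, hr⟩ : ∃ r : Fin n → Fin j, ∀ k, (r k : ℕ) = m k % j :=
      ⟨fun k => ⟨m k % j, Nat.mod_lt _ hk0⟩, fun _ => rfl⟩
    have e2 : j * l = j * (∑ k, (m k / j) * i k) + ∑ k, (r k : ℕ) * i k := by
      rw [← hm, Finset.mul_sum, ← Finset.sum_add_distrib]
      refine Finset.sum_congr rfl fun k _ => ?_
      rw [hr k]
      conv_lhs => rw [e1 k]
      ring
    have e3 : j ∣ ∑ k, (r k : ℕ) * i k := by
      have h5 : j ∣ j * (∑ k, (m k / j) * i k) + ∑ k, (r k : ℕ) * i k := ⟨l, e2.symm⟩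
      exact (Nat.dvd_add_right (dvd_mul_right _ _)).1 h5
    obtain ⟨l', hl'⟩ := e3
    have e5 : l = (∑ k, (m k / j) * i k) + l' := by
      rw [hl', ← mul_add] at e2
      exact Nat.eq_of_mul_eq_mul_left hk0 e2
    have e7 : ∏ k, (x k ^ j / φ ^ i k) ^ (m k / j) =
        (∏ k, x k ^ (j * (m k / j))) / φ ^ (∑ k, (m k / j) * i k) := by
      rw [← Finset.prod_pow_eq_pow_sum, ← Finset.prod_div_distrib]
      refine Finset.prod_congr rfl fun k _ => ?_
      rw [div_pow, ← pow_mul, ← pow_mul, mul_comm (i k)]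
    have e6 : (∏ k, x k ^ m k) / φ ^ l = (∏ k, (x k ^ j / φ ^ i k) ^ (m k / j)) *
        ((∏ k, x k ^ (r k : ℕ)) / φ ^ l') := by
      rw [e7, div_mul_div_comm, ← pow_add, ← e5, ← Finset.prod_mul_distrib]
      congr 1
      refine Finset.prod_congr rfl fun k _ => ?_
      rw [← pow_add, hr k]
      congr 1
      exact e1 k
    rw [e6]
    refine S.mul_mem ?_ (h2 r l' hl')
    exact S.prod_mem fun k _ => S.pow_mem (h1 k) _
  | zero =>
    rw [zero_div]
    exact S.zero_mem
  | add y z _ _ hy hz =>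
    rw [add_div]
    exact S.add_mem hy hz
  | smul t y _ hy =>
    rw [smul_div_assoc]
    exact S.smul_mem hy t

/-- S_OPT (from S_G1) -/
theorem s_OPT (hG1 : S_G1) : S_OPT := by
  classical
  intro K _ _ R ξ J a hC h hh hcst hfg
  have hcone := hC.toIsCone
  obtain ⟨n, x, i, γ, hx, hgen⟩ := hG1 K R ξ hcone h hh hfg
  have hxR : ∀ k, x k ∈ R := fun k => (hx k).1.1
  have hx0 : ∀ k, x k ≠ 0 := fun k => (hx k).2.1
  have hxh : ∀ k, x k * h ^ i k ∈ R := fun k => (hx k).1.2
  have hxe : ∀ k, ξ (x k) = (γ k : ℂ) • x k := fun k => (hx k).2.2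
  have hγ : ∀ k, 0 ≤ γ k := fun k => hcone.eig_nonneg (hxR k) (hx0 k) (hxe k)
  have hh0 : h ≠ 0 := by
    rintro rfl
    exact hcst ⟨0, by rw [map_zero]⟩
  -- positivity
  have hpos : ∀ k, 0 < i k → 0 < γ k := by
    intro k hk
    rcases (hγ k).lt_or_eq with h1 | h1
    · exact h1
    · exfalso
      have h2 := hxe k
      rw [← h1, Complex.ofReal_zero, zero_smul] at h2
      obtain ⟨t, ht⟩ := hcone.const _ (hxR k) h2
      have ht0 : t ≠ 0 := by
        rintro rfl
        rw [map_zero] at ht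
        exact hx0 k ht
      have h3 : h ^ i k ∈ R := by
        have h4 := R.smul_mem (hxh k) t⁻¹
        rwa [ht, ← Algebra.smul_def, smul_smul, inv_mul_cancel₀ ht0, one_smul] at h4
      have h5 : IsIntegral R h := by
        refine IsIntegral.of_pow hk ?_
        exact isIntegral_algebraMap (R := R) (x := (⟨h ^ i k, h3⟩ : R))
      obtain ⟨s, hs⟩ := hcone.const h (hC.normal h h5) hh
      exact hcst ⟨s, hs⟩
  -- some generator has positive degree in `X`
  have hex : ∃ k, 0 < i k := by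
    by_contra hcon
    push Not at hcon
    obtain ⟨f, hf, g, hg, hg0, hfg'⟩ := hcone.frac h
    have h1 : g ∈ Mon x i 1 := mem_mon hgen ⟨hg, by
      rw [pow_one, hfg', mul_div_cancel₀ _ hg0]
      exact hf⟩
    have h2 : Mon x i 1 = ⊥ := by
      unfold Mon
      rw [Submodule.span_eq_bot]
      rintro z ⟨m, hm, rfl⟩
      exfalso
      have h3 : ∑ k, m k * i k = 0 := Finset.sum_eq_zero fun k _ => by
        rw [Nat.le_zero.1 (hcon k), mul_zero]
      omega
    rw [h2] at h1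
    exact hg0 ((Submodule.mem_bot ℂ).1 h1)
  -- maximal slope
  obtain ⟨k0, hk0, hmax⟩ : ∃ k0, 0 < i k0 ∧ ∀ k, γ k0 * i k ≤ γ k * i k0 := by
    obtain ⟨k1, hk1⟩ := hex
    obtain ⟨k0, hk0, hmax⟩ := Finset.exists_max_image (Finset.univ.filter fun k => 0 < i k)
      (fun k => (i k : ℝ) / γ k) ⟨k1, by simpa using hk1⟩
    rw [Finset.mem_filter] at hk0
    refine ⟨k0, hk0.2, fun k => ?_⟩
    rcases Nat.eq_zero_or_pos (i k) with h1 | h1
    · rw [h1]
      have := hγ k
      push_cast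
      rw [mul_zero]
      positivity
    · have h2 := hmax k (by simpa using h1)
      rw [div_le_div_iff₀ (hpos k h1) (hpos k0 hk0.2)] at h2
      linarith
  refine ⟨x k0, i k0, γ k0, (hx k0).1, hx0 k0, hk0, hxe k0, hpos k0 hk0, ?_, ?_⟩
  · intro y c N hy hy0 hyc
    exact slope_le hxe hmax (mem_mon hgen hy) hy0 hyc
  · -- finite generation
    have hφ0 : x k0 ≠ 0 := hx0 k0
    set T : Set K := Set.range (fun k => x k ^ i k0 / x k0 ^ i k) ∪
      ((fun r : Fin n → Fin (i k0) =>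
        (∏ k, x k ^ (r k : ℕ)) / x k0 ^ ((∑ k, (r k : ℕ) * i k) / i k0)) ''
        {r | i k0 ∣ ∑ k, (r k : ℕ) * i k}) with hT
    have hfin : T.Finite := (Set.finite_range _).union (Set.toFinite _)
    have key : slopeAlg R h (x k0) (i k0) (hx k0).1 (hx0 k0) = Algebra.adjoin ℂ T := by
      apply le_antisymm
      · rintro _ ⟨l, y, hy, rfl⟩
        have a1 : ∀ k, x k ^ i k0 / x k0 ^ i k ∈ Algebra.adjoin ℂ T := by
          intro k
          apply Algebra.subset_adjoin
          left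
          exact ⟨k, rfl⟩
        have a2 : ∀ (r : Fin n → Fin (i k0)) (l' : ℕ), ∑ k, (r k : ℕ) * i k = i k0 * l' →
            (∏ k, x k ^ (r k : ℕ)) / x k0 ^ l' ∈ Algebra.adjoin ℂ T := by
          intro r l' hl'
          apply Algebra.subset_adjoin
          right
          refine ⟨r, ⟨l', hl'⟩, ?_⟩
          beta_reduce
          rw [hl', Nat.mul_div_cancel_left _ hk0]
        exact mon_div hk0 a1 a2 (mem_mon hgen hy)
      · refine Algebra.adjoin_le ?_
        rintro _ (⟨k, rfl⟩ | ⟨r, ⟨l, hl⟩, rfl⟩)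
        · refine ⟨i k, x k ^ i k0, ⟨R.pow_mem (hxR k) _, ?_⟩, rfl⟩
          have h1 := R.pow_mem (hxh k) (i k0)
          rwa [mul_pow, ← pow_mul, mul_comm (i k)] at h1
        · beta_reduce
          rw [hl, Nat.mul_div_cancel_left _ hk0]
          refine ⟨l, (∏ k, x k ^ (r k : ℕ)), ⟨R.prod_mem fun k _ => R.pow_mem (hxR k) _, ?_⟩, rfl⟩
          rw [← hl]
          have h1 : (∏ k, x k ^ (r k : ℕ)) * h ^ (∑ k, (r k : ℕ) * i k) =
              ∏ k, (x k * h ^ i k) ^ (r k : ℕ) := by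
            rw [← Finset.prod_pow_eq_pow_sum, ← Finset.prod_mul_distrib]
            refine Finset.prod_congr rfl fun k _ => ?_
            rw [mul_pow, ← pow_mul, mul_comm (i k)]
          rw [h1]
          exact R.prod_mem fun k _ => R.pow_mem (hxh k) _
    rw [key]
    exact ⟨hfin.toFinset, by rw [Set.Finite.coe_toFinset]⟩

end Pool.Agent.Helper73.D4
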