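import Pool.Agent.Helper88.D4.Stmts

/-!
# Project D4 (MP_e1889a_ag), piece S_R2
-/

set_option autoImplicit false

namespace Pool.Agent.Helper73.D4

open Module Pool.Agent.Helper37.SD Pool.Agent.Helper20.TS Pool.Agent.Helper88.D4

variable {K : Type} [Field K] [Algebra ℂ K]

/-- a function of `n` arguments in `R` which is homogeneous for a locally nilpotent operator has
weight `0` -/
theorem tau_zero {R : Subalgebra ℂ K} {N : Derivation ℂ K K} (hN : Pres R N)
    (hnil : ∀ x ∈ R, ∃ n : ℕ, (N : K → K)^[n] x = 0) {n : ℕ} (M : (Fin n → K) → K) (τ : ℂ)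
    (hM : ∀ x : Fin n → K, (∀ i, x i ∈ R) → M x ∈ R)
    (hom : ∀ x : Fin n → K, (∀ i, x i ∈ R) →
      N (M x) = τ • M x + ∑ i, M (Function.update x i (N (x i))))
    (hne : ∃ x : Fin n → K, (∀ i, x i ∈ R) ∧ M x ≠ 0)
    (hz : ∀ x : Fin n → K, (∃ i, x i = 0) → M x = 0) : τ = 0 := by
  classical
  -- tuples with bounded nilpotency orders
  have hex : ∃ s : ℕ, ∃ (x : Fin n → K) (k : Fin n → ℕ), (∀ i, x i ∈ R) ∧ M x ≠ 0 ∧
      (∀ i, (N : K → K)^[k i] (x i) = 0) ∧ ∑ i, k i = s := by
    obtain ⟨x, hx, hMx⟩ := hne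
    choose k hk using fun i => hnil (x i) (hx i)
    exact ⟨_, x, k, hx, hMx, hk, rfl⟩
  obtain ⟨x, k, hx, hMx, hk, hs⟩ := Nat.find_spec hex
  have hmin := fun s (h : s < Nat.find hex) => Nat.find_min hex h
  -- all the terms of the sum vanish
  have hzero : ∀ i, M (Function.update x i (N (x i))) = 0 := by
    intro i
    by_contra hne'
    have hki : k i ≠ 0 := by
      intro h0
      have := hk i
      rw [h0] at this
      exact hMx (hz x ⟨i, this⟩)
    obtain ⟨m, hm⟩ := Nat.exists_eq_succ_of_ne_zero hki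
    refine hmin (∑ j, Function.update k i m j) ?_ ⟨Function.update x i (N (x i)),
      Function.update k i m, ?_, hne', ?_, rfl⟩
    · rw [← hs]
      refine Finset.sum_lt_sum ?_ ⟨i, Finset.mem_univ _, ?_⟩
      · intro j _
        by_cases hj : j = i
        · subst hj
          rw [Function.update_self, hm]
          exact Nat.le_succ m
        · rw [Function.update_of_ne hj]
      · rw [Function.update_self, hm]
        exact Nat.lt_succ_self m
    · intro j
      by_cases hj : j = i
      · subst hj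
        rw [Function.update_self]
        exact hN _ (hx j)
      · rw [Function.update_of_ne hj]
        exact hx j
    · intro j
      by_cases hj : j = i
      · subst hj
        rw [Function.update_self, Function.update_self]
        have := hk j
        rw [hm, Function.iterate_succ_apply] at this
        exact this
      · rw [Function.update_of_ne hj, Function.update_of_ne hj]
        exact hk j
  have h1 := hom x hx
  rw [Finset.sum_eq_zero fun i _ => hzero i, add_zero] at h1
  have h2 : ∀ l : ℕ, (N : K → K)^[l] (M x) = τ ^ l • M x := by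
    intro l
    induction l with
    | zero => simp
    | succ l ih =>
      rw [Function.iterate_succ_apply', ih, Derivation.map_smul, h1, smul_smul, pow_succ]
  obtain ⟨l, hl⟩ := hnil (M x) (hM x hx)
  rw [h2 l] at hl
  rcases smul_eq_zero.1 hl with h | h
  · by_contra h'
    exact pow_ne_zero l h' h
  · exact absurd h hMx

section Br

variable {J : Bra K}

theorem l1 (hJ : IsAlt J) (x y z w : K) : J y z w x = -J x z w y := hJ.s1 y x z w

theorem l2 (hJ : IsAlt J) (x y z w : K) : J y z w x = -J y x w z := by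
  rw [show J y z w = - J z y w by rw [hJ.s2 y z w, neg_neg], Derivation.neg_apply, l1 hJ x z y w,
    neg_neg, hJ.s2 y x w, Derivation.neg_apply]

theorem l3 (hJ : IsAlt J) (x y z w : K) : J y z w x = -J y z x w := by
  rw [show J y z w = - J y w z by rw [hJ.s3 y z w, neg_neg], Derivation.neg_apply, l2 hJ x y w z,
    neg_neg, hJ.s3 y z x, Derivation.neg_apply]

theorem lin1 (hJ : IsAlt J) (p q z w : K) (μ : ℂ) :
    J (p - μ • q) z w = J p z w - μ • J q z w := by
  ext x
  rw [l1 hJ, map_sub, Derivation.map_smul, Derivation.sub_apply, Derivation.smul_apply,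
    l1 hJ x p, l1 hJ x q, smul_neg]
  abel

theorem lin2 (hJ : IsAlt J) (p q z w : K) (μ : ℂ) :
    J z (p - μ • q) w = J z p w - μ • J z q w := by
  ext x
  rw [l2 hJ, map_sub, Derivation.map_smul, Derivation.sub_apply, Derivation.smul_apply,
    l2 hJ x z p, l2 hJ x z q, smul_neg]
  abel

theorem lin3 (hJ : IsAlt J) (p q z w : K) (μ : ℂ) :
    J z w (p - μ • q) = J z w p - μ • J z w q := by
  ext x
  rw [l3 hJ, map_sub, Derivation.map_smul, Derivation.sub_apply, Derivation.smul_apply,
    l3 hJ x z w p, l3 hJ x z w q, smul_neg]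
  abel

theorem zero1 (hJ : IsAlt J) (z w : K) : J 0 z w = 0 := by
  ext x
  rw [l1 hJ, map_zero, neg_zero, Derivation.zero_apply]

theorem zero2 (hJ : IsAlt J) (z w : K) : J z 0 w = 0 := by
  ext x
  rw [l2 hJ, map_zero, neg_zero, Derivation.zero_apply]

theorem zero3 (hJ : IsAlt J) (z w : K) : J z w 0 = 0 := by
  ext x
  rw [l3 hJ, map_zero, neg_zero, Derivation.zero_apply]

/-- a derivation which vanishes on `R` vanishes -/
theorem der_zero {R : Subalgebra ℂ K} (hR : IsFrac R) {D : Derivation ℂ K K}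
    (h : ∀ x ∈ R, D x = 0) : D = 0 := by
  ext x
  obtain ⟨a, ha, b, hb, hb0, rfl⟩ := hR x
  have e : a = a / b * b := (div_mul_cancel₀ a hb0).symm
  have h1 : D a = D (a / b * b) := by rw [← e]
  rw [h a ha, Derivation.leibniz, h b hb, smul_zero, zero_add, smul_eq_mul] at h1
  rw [Derivation.zero_apply]
  rcases mul_eq_zero.1 h1.symm with h2 | h2
  · exact absurd h2 hb0
  · exact h2

theorem ne_R {R : Subalgebra ℂ K} (hR : IsFrac R) (hJ : IsAlt J) :
    ∃ x ∈ R, ∃ y ∈ R, ∃ z ∈ R, ∃ w ∈ R, J y z w x ≠ 0 := by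
  by_contra hcon
  push Not at hcon
  -- step by step all brackets vanish
  have h0 : ∀ y ∈ R, ∀ z ∈ R, ∀ w ∈ R, J y z w = 0 := fun y hy z hz w hw =>
    der_zero hR fun x hx => hcon x hx y hy z hz w hw
  have h1 : ∀ y, ∀ z ∈ R, ∀ w ∈ R, J y z w = 0 := fun y z hz w hw =>
    der_zero hR fun x hx => by rw [l1 hJ, h0 x hx z hz w hw, Derivation.zero_apply, neg_zero]
  have h2 : ∀ y z, ∀ w ∈ R, J y z w = 0 := fun y z w hw =>
    der_zero hR fun x hx => by rw [l2 hJ, h1 y x hx w hw, Derivation.zero_apply, neg_zero]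
  have h3 : ∀ y z w, J y z w = 0 := fun y z w =>
    der_zero hR fun x hx => by rw [l3 hJ, h2 y z x hx, Derivation.zero_apply, neg_zero]
  obtain ⟨x, y, z, w, h⟩ := hJ.ne
  exact h (by rw [h3 y z w, Derivation.zero_apply])

/-- `[ξ, J y z w]` -/
theorem lie_J {ξ : Derivation ℂ K K} {a : ℂ} (h : HomBra ξ a J) (y z w : K) :
    ⁅ξ, J y z w⁆ = J (ξ y) z w + J y (ξ z) w + J y z (ξ w) - a • J y z w := by
  ext x
  rw [Derivation.commutator_apply, h x y z w]
  simp only [Derivation.add_apply, Derivation.sub_apply, Derivation.smul_apply]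
  ring

theorem homBra_sub {ξ E : Derivation ℂ K K} {a b μ : ℂ} (hJ : IsAlt J) (h : HomBra ξ a J)
    (hE : HomBra E b J) : HomBra (E - μ • ξ) (b - μ * a) J := by
  intro x y z w
  have h1 := h x y z w
  have h2 := hE x y z w
  have e : (E - μ • ξ : Derivation ℂ K K) (J y z w x) = E (J y z w x) - μ • ξ (J y z w x) := rfl
  rw [e, h1, h2]
  have e2 : ∀ t : K, (E - μ • ξ : Derivation ℂ K K) t = E t - μ • ξ t := fun t => rfl
  rw [e2 x, e2 y, e2 z, e2 w, lin1 hJ, lin2 hJ, lin3 hJ, map_sub, Derivation.map_smul]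
  simp only [Derivation.sub_apply, Derivation.smul_apply, smul_add, smul_sub, sub_smul, smul_smul]
  abel

/-- the Lie derivative of a form along a combination -/
theorem homForm_sub {ξ E : Derivation ℂ K K} {ω : Form K} {k l : ℝ} (μ : ℂ)
    (h : HomForm ξ k ω) (hE : HomForm E l ω) (A B : Derivation ℂ K K) :
    (E - μ • ξ : Derivation ℂ K K) (ω A B) = ((l : ℂ) - μ * k) • ω A B +
      ω ⁅(E - μ • ξ : Derivation ℂ K K), A⁆ B + ω A ⁅(E - μ • ξ : Derivation ℂ K K), B⁆ := by
  have h1 := h A B
  have h2 := hE A B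
  have e : (E - μ • ξ : Derivation ℂ K K) (ω A B) = E (ω A B) - μ • ξ (ω A B) := rfl
  have e1 : ∀ C : Derivation ℂ K K, ⁅(E - μ • ξ : Derivation ℂ K K), C⁆ = ⁅E, C⁆ - μ • ⁅ξ, C⁆ := by
    intro C
    rw [sub_lie, smul_lie]
  have e2 : ∀ (C D : Derivation ℂ K K), ω (μ • C) D = μ • ω C D := by
    intro C D
    rw [LinearMap.map_smul_of_tower, LinearMap.smul_apply]
  have e3 : ∀ (C D : Derivation ℂ K K), ω C (μ • D) = μ • ω C D := fun C D =>
    LinearMap.map_smul_of_tower _ _ _
  rw [e, e1, e1, map_sub ω, LinearMap.sub_apply, e2, map_sub (ω A), e3]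
  rw [sub_sub, sub_eq_iff_eq_add] at h1 h2
  rw [h1, h2, sub_smul, smul_add, smul_add, smul_smul]
  abel

end Br

/-- S_R2 (from S_AI) -/
theorem s_R2 (hAI : S_AI) : S_R2 := by
  intro K _ _ R ξ J a hC E μ hE hnil hJE ω k hω hk h1 hω0
  have hJ := hC.alt
  have hN : Pres R (E - μ • ξ : Derivation ℂ K K) := by
    intro x hx
    have e : (E - μ • ξ : Derivation ℂ K K) x = E x - μ • ξ x := rfl
    rw [e]
    exact R.sub_mem (hE x hx) (R.smul_mem (hC.toIsCone.pres x hx) μ)
  have hNJ := homBra_sub (μ := μ) hJ hC.hom hJE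
  have hJR : ∀ y ∈ R, ∀ z ∈ R, ∀ w ∈ R, Pres R (J y z w) := fun y hy z hz w hw x hx =>
    hC.reg x hx y hy z hz w hw
  obtain ⟨x0, hx0, y0, hy0, z0, hz0, w0, hw0, hne⟩ := ne_R hC.frac hJ
  set N : Derivation ℂ K K := E - μ • ξ with hNd
  -- the bracket
  have t1 : -(2 - μ * (a : ℂ)) = 0 := by
    refine tau_zero hN hnil (fun x : Fin 4 → K => J (x 1) (x 2) (x 3) (x 0)) _ ?_ ?_ ?_ ?_
    · intro x hx
      exact hC.reg _ (hx 0) _ (hx 1) _ (hx 2) _ (hx 3)
    · intro x _
      rw [Fin.sum_univ_four]
      have h := hNJ (x 0) (x 1) (x 2) (x 3)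
      simp only [Function.update_self, Function.update_of_ne (show (1 : Fin 4) ≠ 0 by decide),
        Function.update_of_ne (show (2 : Fin 4) ≠ 0 by decide),
        Function.update_of_ne (show (3 : Fin 4) ≠ 0 by decide),
        Function.update_of_ne (show (0 : Fin 4) ≠ 1 by decide),
        Function.update_of_ne (show (2 : Fin 4) ≠ 1 by decide),
        Function.update_of_ne (show (3 : Fin 4) ≠ 1 by decide),
        Function.update_of_ne (show (0 : Fin 4) ≠ 2 by decide),
        Function.update_of_ne (show (1 : Fin 4) ≠ 2 by decide),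
        Function.update_of_ne (show (3 : Fin 4) ≠ 2 by decide),
        Function.update_of_ne (show (0 : Fin 4) ≠ 3 by decide),
        Function.update_of_ne (show (1 : Fin 4) ≠ 3 by decide),
        Function.update_of_ne (show (2 : Fin 4) ≠ 3 by decide)]
      rw [h, neg_smul]
      abel
    · exact ⟨![x0, y0, z0, w0], by
        intro i
        fin_cases i <;> assumption, hne⟩
    · rintro x ⟨i, hi⟩
      beta_reduce
      fin_cases i
      · have hi' : x 0 = 0 := hi
        rw [hi', map_zero]
      · have hi' : x 1 = 0 := hi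
        rw [hi', zero1 hJ, Derivation.zero_apply]
      · have hi' : x 2 = 0 := hi
        rw [hi', zero2 hJ, Derivation.zero_apply]
      · have hi' : x 3 = 0 := hi
        rw [hi', zero3 hJ, Derivation.zero_apply]
  have hlie : ∀ y z w : K, ⁅N, J y z w⁆ = J (N y) z w + J y (N z) w + J y z (N w) := by
    intro y z w
    have h := lie_J hNJ y z w
    have e : (2 : ℂ) - μ * a = 0 := by
      rw [← neg_eq_zero]
      exact t1
    rw [h, e, zero_smul, sub_zero]
  -- the form
  have t2 : ((1 : ℝ) : ℂ) - μ * k = 0 := by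
    refine tau_zero hN hnil (fun x : Fin 6 → K => ω (J (x 0) (x 1) (x 2)) (J (x 3) (x 4) (x 5)))
      _ ?_ ?_ ?_ ?_
    · intro x hx
      exact hω.reg _ _ (hJR _ (hx 0) _ (hx 1) _ (hx 2)) (hJR _ (hx 3) _ (hx 4) _ (hx 5))
    · intro x _
      have h := homForm_sub μ hk h1 (J (x 0) (x 1) (x 2)) (J (x 3) (x 4) (x 5))
      rw [← hNd] at h
      rw [h, hlie, hlie, Fin.sum_univ_six]
      simp only [map_add, LinearMap.add_apply]
      simp only [Function.update_self, Function.update_of_ne (show (1 : Fin 6) ≠ 0 by decide),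
        Function.update_of_ne (show (2 : Fin 6) ≠ 0 by decide),
        Function.update_of_ne (show (3 : Fin 6) ≠ 0 by decide),
        Function.update_of_ne (show (4 : Fin 6) ≠ 0 by decide),
        Function.update_of_ne (show (5 : Fin 6) ≠ 0 by decide),
        Function.update_of_ne (show (0 : Fin 6) ≠ 1 by decide),
        Function.update_of_ne (show (2 : Fin 6) ≠ 1 by decide),
        Function.update_of_ne (show (3 : Fin 6) ≠ 1 by decide),
        Function.update_of_ne (show (4 : Fin 6) ≠ 1 by decide),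
        Function.update_of_ne (show (5 : Fin 6) ≠ 1 by decide),
        Function.update_of_ne (show (0 : Fin 6) ≠ 2 by decide),
        Function.update_of_ne (show (1 : Fin 6) ≠ 2 by decide),
        Function.update_of_ne (show (3 : Fin 6) ≠ 2 by decide),
        Function.update_of_ne (show (4 : Fin 6) ≠ 2 by decide),
        Function.update_of_ne (show (5 : Fin 6) ≠ 2 by decide),
        Function.update_of_ne (show (0 : Fin 6) ≠ 3 by decide),
        Function.update_of_ne (show (1 : Fin 6) ≠ 3 by decide),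
        Function.update_of_ne (show (2 : Fin 6) ≠ 3 by decide),
        Function.update_of_ne (show (4 : Fin 6) ≠ 3 by decide),
        Function.update_of_ne (show (5 : Fin 6) ≠ 3 by decide),
        Function.update_of_ne (show (0 : Fin 6) ≠ 4 by decide),
        Function.update_of_ne (show (1 : Fin 6) ≠ 4 by decide),
        Function.update_of_ne (show (2 : Fin 6) ≠ 4 by decide),
        Function.update_of_ne (show (3 : Fin 6) ≠ 4 by decide),
        Function.update_of_ne (show (5 : Fin 6) ≠ 4 by decide),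
        Function.update_of_ne (show (0 : Fin 6) ≠ 5 by decide),
        Function.update_of_ne (show (1 : Fin 6) ≠ 5 by decide),
        Function.update_of_ne (show (2 : Fin 6) ≠ 5 by decide),
        Function.update_of_ne (show (3 : Fin 6) ≠ 5 by decide),
        Function.update_of_ne (show (4 : Fin 6) ≠ 5 by decide)]
      abel
    · by_contra hcon
      push Not at hcon
      have hz : ∀ p ∈ R, ∀ q ∈ R, ∀ r ∈ R, ∀ p' ∈ R, ∀ q' ∈ R, ∀ r' ∈ R,
          ω (J p q r) (J p' q' r') = 0 := by
        intro p hp q hq r hr p' hp' q' hq' r' hr'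
        exact hcon ![p, q, r, p', q', r'] (by intro i; fin_cases i <;> assumption)
      set z : Fin 4 → K := ![x0, y0, z0, w0] with hzd
      have hzR : ∀ i, z i ∈ R := by
        intro i
        fin_cases i <;> assumption
      have hbz : brk J z ≠ 0 := hne
      obtain ⟨-, h2, -⟩ := hAI K J hC.trdeg hJ
      obtain ⟨-, hspan⟩ := h2 z hbz
      have hdd : ∀ i j, ω (dfr J z i) (dfr J z j) = 0 := by
        intro i j
        have hi : ∃ (c : K) (p q r : K), p ∈ R ∧ q ∈ R ∧ r ∈ R ∧ dfr J z i = c • J p q r := by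
          fin_cases i
          · exact ⟨_, _, _, _, hzR 1, hzR 2, hzR 3, rfl⟩
          · exact ⟨_, _, _, _, hzR 0, hzR 2, hzR 3, rfl⟩
          · exact ⟨_, _, _, _, hzR 0, hzR 1, hzR 3, rfl⟩
          · exact ⟨_, _, _, _, hzR 0, hzR 1, hzR 2, rfl⟩
        have hj : ∃ (c : K) (p q r : K), p ∈ R ∧ q ∈ R ∧ r ∈ R ∧ dfr J z j = c • J p q r := by
          fin_cases j
          · exact ⟨_, _, _, _, hzR 1, hzR 2, hzR 3, rfl⟩
          · exact ⟨_, _, _, _, hzR 0, hzR 2, hzR 3, rfl⟩
          · exact ⟨_, _, _, _, hzR 0, hzR 1, hzR 3, rfl⟩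
          · exact ⟨_, _, _, _, hzR 0, hzR 1, hzR 2, rfl⟩
        obtain ⟨c, p, q, r, hp, hq, hr, e⟩ := hi
        obtain ⟨c', p', q', r', hp', hq', hr', e'⟩ := hj
        rw [e, e', map_smul, map_smul ω, LinearMap.smul_apply, hz p hp q hq r hr p' hp' q' hq' r' hr',
          smul_zero, smul_zero]
      apply hω0
      ext A B
      rw [hspan A, hspan B]
      simp only [map_sum, map_smul, LinearMap.sum_apply, LinearMap.smul_apply, hdd, smul_zero,
        Finset.sum_const_zero, LinearMap.zero_apply]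
    · rintro x ⟨i, hi⟩
      beta_reduce
      fin_cases i
      · have hi' : x 0 = 0 := hi
        rw [hi', zero1 hJ, map_zero, LinearMap.zero_apply]
      · have hi' : x 1 = 0 := hi
        rw [hi', zero2 hJ, map_zero, LinearMap.zero_apply]
      · have hi' : x 2 = 0 := hi
        rw [hi', zero3 hJ, map_zero, LinearMap.zero_apply]
      · have hi' : x 3 = 0 := hi
        rw [hi', zero1 hJ, map_zero]
      · have hi' : x 4 = 0 := hi
        rw [hi', zero2 hJ, map_zero]
      · have hi' : x 5 = 0 := hi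
        rw [hi', zero3 hJ, map_zero]
  have e1 : μ * (a : ℂ) = 2 := by linear_combination t1
  have e2 : μ * (k : ℂ) = 1 := by
    push_cast at t2
    linear_combination -t2
  have e3 : (2 * k : ℂ) = a := by
    linear_combination (-(k : ℂ)) * e1 + (a : ℂ) * e2
  exact_mod_cast e3

end Pool.Agent.Helper73.D4
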