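import Pool.Agent.Helper88.D4.Stmts4
import Pool.Agent.Helper14.D4.T1

/-!
# Project D4 (MP_e1889a_ag), piece S_T1s
-/

set_option autoImplicit false

namespace Pool.Agent.Helper73.D4

open Module Pool.Agent.Helper37.SD Pool.Agent.Helper20.TS Pool.Agent.Helper88.D4
  Pool.Agent.Helper14.D4

variable {K : Type} [Field K] [Algebra ℂ K] {R : Subalgebra ℂ K} {ξ N : Derivation ℂ K K}

/-- an eigenvector in `R` of a locally nilpotent derivation has eigenvalue `0` -/
theorem nil_eig (hnil : ∀ x ∈ R, ∃ n : ℕ, (N : K → K)^[n] x = 0) {x : K} {ν : ℂ} (hx : x ∈ R)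
    (hx0 : x ≠ 0) (h : N x = ν • x) : ν = 0 := by
  have h2 : ∀ l : ℕ, (N : K → K)^[l] x = ν ^ l • x := by
    intro l
    induction l with
    | zero => simp
    | succ l ih =>
      rw [Function.iterate_succ_apply', ih, Derivation.map_smul, h, smul_smul, pow_succ]
  obtain ⟨l, hl⟩ := hnil x hx
  rw [h2 l] at hl
  rcases smul_eq_zero.1 hl with h3 | h3
  · by_contra h'
    exact pow_ne_zero l h' h3
  · exact absurd h3 hx0

theorem nil_gen (hN : Pres R N) (hnil : ∀ x ∈ R, ∃ n : ℕ, (N : K → K)^[n] x = 0) {x : K}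
    (hx : x ∈ R) (hx0 : x ≠ 0) {ν : ℂ} {n : ℕ}
    (hn : (((N : K →ₗ[ℂ] K) - ν • (1 : End ℂ K) : End ℂ K) ^ n) x = 0) : ν = 0 := by
  obtain ⟨j, h1, h2⟩ := exists_eig_of_iter (N : K →ₗ[ℂ] K) hx0 hn
  exact nil_eig hnil (iter_mem' hN ν hx j) h1 h2

theorem ad_nil (h : IsCone R ξ) (hN : Pres R N) (hc : ⁅ξ, N⁆ = 0)
    (hnil : ∀ x ∈ R, ∃ n : ℕ, (N : K → K)^[n] x = 0) {c : ℝ} {D : derC R ξ c} (hD : D ≠ 0)
    {lam : ℂ} {n : ℕ}
    (hn : ((adR hN hc c - lam • (1 : End ℂ (derC R ξ c))) ^ n) D = 0) : lam = 0 := by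
  classical
  obtain ⟨j, h1, h2⟩ := exists_eig_of_iter (adR hN hc c) hD hn
  generalize ((adR hN hc c - lam • (1 : End ℂ (derC R ξ c))) ^ j) D = E at h1 h2
  have h3 : ⁅N, (E : Derivation ℂ K K)⁆ = lam • (E : Derivation ℂ K K) := congrArg Subtype.val h2
  have h4 : (E : Derivation ℂ K K) ≠ 0 := fun h0 => h1 (Subtype.ext h0)
  have h5 : ∃ s : ℕ, ∃ y ∈ R, (N : K → K)^[s] y = 0 ∧ (E : Derivation ℂ K K) y ≠ 0 := by
    by_contra hcon
    push Not at hcon
    refine h4 (der_eq_zero h.frac fun x hx => ?_)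
    obtain ⟨s, hs⟩ := hnil x hx
    exact hcon s x hx hs
  obtain ⟨y, hy, hs, hEy⟩ := Nat.find_spec h5
  have hmin := fun s (h : s < Nat.find h5) => Nat.find_min h5 h
  have h6 : (E : Derivation ℂ K K) (N y) = 0 := by
    by_contra hne
    have hs0 : Nat.find h5 ≠ 0 := by
      intro h0
      rw [h0] at hs
      have : y = 0 := hs
      rw [this, map_zero] at hEy
      exact hEy rfl
    obtain ⟨m, hm⟩ := Nat.exists_eq_succ_of_ne_zero hs0
    refine hmin m (by omega) ⟨N y, hN _ hy, ?_, hne⟩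
    rw [hm, Function.iterate_succ_apply] at hs
    exact hs
  have h7 : N ((E : Derivation ℂ K K) y) = lam • (E : Derivation ℂ K K) y := by
    have h8 : ⁅N, (E : Derivation ℂ K K)⁆ y = lam • (E : Derivation ℂ K K) y := by rw [h3]; rfl
    rw [Derivation.commutator_apply, h6, sub_zero] at h8
    exact h8
  exact nil_eig hnil (E.2.1 y hy) hEy h7

/-- The weight of a regular form for a locally nilpotent derivation is `0`. -/
theorem form_nil (h : IsCone R ξ) (hN : Pres R N) (hc : ⁅ξ, N⁆ = 0)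
    (hnil : ∀ x ∈ R, ∃ n : ℕ, (N : K → K)^[n] x = 0)
    {ω : Form K} (hω : IsReg R ω) (h0 : ω ≠ 0) {χ : ℂ} (hχ : lieF N ω = χ • ω) :
    χ = 0 := by
  have h1 : ∃ D ∈ HD R ξ, ∃ E ∈ HD R ξ, ω D E ≠ 0 := by
    by_contra hcon
    push Not at hcon
    exact h0 (form_zero (span_hd h) hcon)
  obtain ⟨D, ⟨hD, c, hDc⟩, E, ⟨hE, d, hEd⟩, hDE⟩ := h1
  have f1 := h.finite_derC c
  have f2 := h.finite_derC d
  let g1 : derC R ξ c →ₗ[ℂ] K :=
    { toFun := fun D => ω (D : Derivation ℂ K K) E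
      map_add' := fun D D' => by
        show ω ((D : Derivation ℂ K K) + (D' : Derivation ℂ K K)) E = _
        rw [map_add]; rfl
      map_smul' := fun z D => form_smul_left ω z _ _ }
  obtain ⟨lam, D', hD', hg1⟩ := exists_gen (adR hN hc c) g1 (x := ⟨D, hD, hDc⟩) hDE
  let g2 : derC R ξ d →ₗ[ℂ] K :=
    { toFun := fun E => ω (D' : Derivation ℂ K K) (E : Derivation ℂ K K)
      map_add' := fun E E' => by
        show ω (D' : Derivation ℂ K K) ((E : Derivation ℂ K K) + (E' : Derivation ℂ K K)) = _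
        rw [map_add]
      map_smul' := fun z D => form_smul_right ω z _ _ }
  obtain ⟨mu, E', hE', hg2⟩ := exists_gen (adR hN hc d) g2 (x := ⟨E, hE, hEd⟩) hg1
  obtain ⟨a, ha⟩ := (Module.End.mem_maxGenEigenspace _ _ _).1 hD'
  obtain ⟨b, hb⟩ := (Module.End.mem_maxGenEigenspace _ _ _).1 hE'
  have hD0 : D' ≠ 0 := by
    rintro rfl
    exact hg1 (by show ω 0 E = 0; rw [map_zero]; rfl)
  have hE0 : E' ≠ 0 := by
    rintro rfl
    exact hg2 (by show ω (D' : Derivation ℂ K K) 0 = 0; rw [map_zero])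
  have hl := ad_nil h hN hc hnil hD0 ha
  have hm := ad_nil h hN hc hnil hE0 hb
  have key := leib_iter (V := derC R ξ c) (W := derC R ξ d) (U := K)
    (fun D E => ω (D : Derivation ℂ K K) (E : Derivation ℂ K K))
    (fun w => by show ω 0 _ = 0; rw [map_zero]; rfl)
    (fun v => by show ω _ 0 = 0; rw [map_zero])
    (adR hN hc c - lam • (1 : End ℂ (derC R ξ c))) (adR hN hc d - mu • (1 : End ℂ (derC R ξ d)))
    ((N : K →ₗ[ℂ] K) - (χ + lam + mu) • (1 : End ℂ K))
    (fun D E => by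
      have e1 : lieF N ω (D : Derivation ℂ K K) (E : Derivation ℂ K K) =
          χ • ω (D : Derivation ℂ K K) (E : Derivation ℂ K K) := by rw [hχ]; rfl
      rw [lieF_apply] at e1
      show N (ω (D : Derivation ℂ K K) (E : Derivation ℂ K K)) -
        (χ + lam + mu) • ω (D : Derivation ℂ K K) (E : Derivation ℂ K K) =
        ω (⁅N, (D : Derivation ℂ K K)⁆ - lam • (D : Derivation ℂ K K)) (E : Derivation ℂ K K) +
        ω (D : Derivation ℂ K K) (⁅N, (E : Derivation ℂ K K)⁆ - mu • (E : Derivation ℂ K K))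
      rw [map_sub, LinearMap.sub_apply, map_sub, form_smul_left, form_smul_right]
      simp only [add_smul]
      linear_combination e1)
    (a + b) a b D' E' rfl ha hb
  have hreg : ω (D' : Derivation ℂ K K) (E' : Derivation ℂ K K) ∈ R := hω.reg _ _ D'.2.1 E'.2.1
  have hn := nil_gen hN hnil hreg hg2 key
  rw [hl, hm, add_zero, add_zero] at hn
  exact hn

/-- A common eigenvector of commuting operators, fixed by one more operator. -/
theorem exists_common1 {V : Type*} [AddCommGroup V] [Module ℂ V] {r : ℕ}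
    (L : Fin r → V →ₗ[ℂ] V) (hL : ∀ i j x, L i (L j x) = L j (L i x)) (P : V →ₗ[ℂ] V)
    (hP : ∀ i x, P (L i x) = L i (P x)) (A : Submodule ℂ V) (hfin : Module.Finite ℂ A)
    (hs : ∀ i, ∀ x ∈ A, L i x ∈ A) {x : V} (hx : x ∈ A) (hx0 : x ≠ 0) (hPx : P x = x) :
    ∃ y ∈ A, y ≠ 0 ∧ P y = y ∧ ∃ χ : Fin r → ℂ, ∀ i, L i y = χ i • y := by
  let W : Submodule ℂ V := A ⊓ LinearMap.ker (P - LinearMap.id)
  have hmem : ∀ η, η ∈ W ↔ η ∈ A ∧ P η = η := by
    intro η
    show η ∈ A ∧ (P - (LinearMap.id : V →ₗ[ℂ] V)) η = 0 ↔ _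
    rw [LinearMap.sub_apply, LinearMap.id_apply, sub_eq_zero]
  have hW : Module.Finite ℂ W :=
    Module.Finite.of_injective (Submodule.inclusion (inf_le_left : W ≤ A))
      (Submodule.inclusion_injective _)
  have hne : W ≠ ⊥ := by
    intro hb
    have : x ∈ W := (hmem x).2 ⟨hx, hPx⟩
    rw [hb, Submodule.mem_bot] at this
    exact hx0 this
  obtain ⟨y, hy, hy0, χ, hχ⟩ := exists_common L hL W hW hne fun i z hz => by
    rw [hmem] at hz ⊢
    exact ⟨hs i z hz.1, by rw [hP, hz.2]⟩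
  exact ⟨y, ((hmem y).1 hy).1, hy0, ((hmem y).1 hy).2, χ, hχ⟩

/-- The piece T1s. -/
theorem s_T1s : S_T1s := by
  intro K _ _ R ξ J a r H c hC hT E e hE hHE hnil ω k hω hcl hk h1 h0
  have h : IsCone R ξ := hC.toIsCone
  have hpres : ∀ i, Pres R (H i) := by
    intro i x hx
    have h1 : Submodule.span ℂ {y | y ∈ R ∧ ∃ m : Fin r → ℤ, IsW H m y} ≤
        (RS R).comap ((H i : Derivation ℂ K K) : K →ₗ[ℂ] K) := by
      refine Submodule.span_le.mpr ?_
      rintro y ⟨hy, m, hm⟩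
      show H i y ∈ R
      rw [hm i]
      exact R.smul_mem hy _
    exact h1 (hT.span x hx)
  have hcomm : ∀ i, ⁅ξ, H i⁆ = 0 := by
    intro i
    rw [hT.xi, sum_lie]
    refine Finset.sum_eq_zero fun j _ => ?_
    rw [smul_lie, hT.comm j i, smul_zero]
  have hxE : ⁅ξ, E⁆ = 0 := by
    rw [hT.xi, sum_lie]
    refine Finset.sum_eq_zero fun j _ => ?_
    rw [smul_lie, hHE j, smul_zero]
  have hspan : ∀ i, ∀ x ∈ R, x ∈ Submodule.span ℂ {y | y ∈ R ∧ ∃ m : ℤ, H i y = (m : ℂ) • y} := by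
    intro i x hx
    refine Submodule.span_mono ?_ (hT.span x hx)
    rintro y ⟨hy, m, hm⟩
    exact ⟨hy, m i, hm i⟩
  have hmemω : ω ∈ RCF R ξ k := ⟨hω, hcl, hk⟩
  have hωE : lieF E ω = ω := by
    have := Helper14.D4.homForm_iff.1 h1
    rw [this]
    simp
  have hst : ∀ i, ∀ η ∈ RCF R ξ k, lieF (H i) η ∈ RCF R ξ k := by
    intro i η hη
    exact ⟨lieF_reg hη.1 (hpres i), lieF_closed hη.1 hη.2.1 _, by
        rw [Helper14.D4.homForm_iff, lieF_comm (hcomm i), Helper14.D4.homForm_iff.1 hη.2.2,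
          map_smul]⟩
  obtain ⟨η, hη, hη0, hη1, χ, hχ⟩ := exists_common1 (fun i => lieF (H i))
    (fun i j x => lieF_comm (hT.comm i j) x) (lieF E) (fun i x => (lieF_comm (hHE i) x).symm)
    (RCF R ξ k) (finite_rcf h k) hst (x := ω) hmemω h0 hωE
  have hint : ∀ i, ∃ m : ℤ, χ i = m := fun i =>
    form_int h (hpres i) (hcomm i) (intEig_of_tor hT i) (hspan i) hη.1 hη0 (hχ i)
  choose m hm using hint
  refine ⟨η, m, hη.1, hη.2.1, hη0, fun i => ?_, ?_, ?_⟩
  · rw [Helper14.D4.homForm_iff, hχ i, hm i]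
    push_cast
    rfl
  · have e1 : lieF ξ η = (k : ℂ) • η := Helper14.D4.homForm_iff.1 hη.2.2
    have e2 : lieF ξ η = ∑ i, (c i : ℂ) • lieF (H i) η := by
      conv_lhs => rw [hT.xi]
      rw [lieF_sum]
      exact Finset.sum_congr rfl fun i _ => lieF_smulH _ _ _
    have e3 : ∑ i, (c i : ℂ) • lieF (H i) η = (∑ i, (c i : ℂ) * (m i : ℂ)) • η := by
      rw [Finset.sum_smul]
      refine Finset.sum_congr rfl fun i _ => ?_
      rw [hχ i, hm i, smul_smul]
    have e4 : ∃ D E, η D E ≠ 0 := by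
      by_contra hcon
      push Not at hcon
      exact hη0 (LinearMap.ext₂ fun D E => hcon D E)
    obtain ⟨D, E, hDE⟩ := e4
    have e5 : (∑ i, (c i : ℂ) * (m i : ℂ)) • η D E = (k : ℂ) • η D E := by
      have e7 : (∑ i, (c i : ℂ) * (m i : ℂ)) • η = (k : ℂ) • η := by
        rw [← e3, ← e2, e1]
      exact congrArg (fun θ : Form K => θ D E) e7
    have e6 : ((∑ i, c i * (m i : ℝ) : ℝ) : ℂ) = (k : ℂ) := by
      push_cast
      exact smul_left_injective ℂ hDE e5
    exact_mod_cast e6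
  · set N : Derivation ℂ K K := E - ∑ i, e i • H i with hNd
    have hsumP : ∀ x ∈ R, (∑ i, e i • H i : Derivation ℂ K K) x ∈ R := by
      intro x hx
      have e1 : (∑ i, e i • H i : Derivation ℂ K K) x = ∑ i, e i • H i x := by
        rw [← Derivation.coeFnAddMonoidHom_apply, map_sum, Finset.sum_apply]
        rfl
      rw [e1]
      exact R.toSubmodule.sum_mem fun i _ => R.smul_mem (hpres i x hx) _
    have hN : Pres R N := by
      intro x hx
      have e1 : N x = E x - (∑ i, e i • H i : Derivation ℂ K K) x := rfl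
      rw [e1]
      exact R.sub_mem (hE x hx) (hsumP x hx)
    have hcN : ⁅ξ, N⁆ = 0 := by
      rw [hNd, lie_sub, hxE, zero_sub, neg_eq_zero, lie_sum]
      refine Finset.sum_eq_zero fun j _ => ?_
      rw [lie_smul, hcomm j, smul_zero]
    have hL : lieF N η = (1 - ∑ i, e i * (m i : ℂ)) • η := by
      refine LinearMap.ext₂ fun D E' => ?_
      show lieF N η D E' = (1 - ∑ i, e i * (m i : ℂ)) • η D E'
      have e1 : lieF E η D E' = η D E' := by rw [hη1]
      have e2 : ∀ i, lieF (e i • H i) η D E' = (e i * (m i : ℂ)) • η D E' := by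
        intro i
        rw [lieF_smulH, hχ i, hm i, mul_smul]
        rfl
      have e3 : lieF (∑ i, e i • H i) η D E' = (∑ i, e i * (m i : ℂ)) • η D E' := by
        rw [lieF_sum, LinearMap.sum_apply, LinearMap.sum_apply, Finset.sum_smul]
        exact Finset.sum_congr rfl fun i _ => e2 i
      have e4 : N = E + (-1 : ℂ) • ∑ i, e i • H i := by
        rw [hNd, neg_one_smul, sub_eq_add_neg]
      have e5 : lieF N η D E' = lieF E η D E' + (-1 : ℂ) • lieF (∑ i, e i • H i) η D E' := by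
        rw [e4, lieF_addH, lieF_smulH]
        rfl
      rw [e5, e1, e3, sub_smul, one_smul, neg_one_smul, sub_eq_add_neg]
    have := form_nil h hN hcN hnil hη.1 hη0 hL
    exact (sub_eq_zero.1 this).symm

end Pool.Agent.Helper73.D4
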